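import Pool.Agent.Lib.MP_53bec5_ag.Main

/-!
If `gcd(k,n) = 1`, every point of the open top positroid variety in `Gr(k,n)` lies in a cluster
torus of Scott's cluster structure.
-/

namespace Pool.Agent.Results.MP_53bec5_ag.EmptyPeriphery

open Pool.Agent.Lib.MP_53bec5_ag

theorem result (k n : ℕ) (hk : 1 ≤ k) (hkn : k < n) (hcop : Nat.Coprime k n)
    (M : Matrix (Fin k) (Fin n) ℂ) (hM : InTopPositroid hkn M) :
    ∃ s : Seed (Vertex k n) (RatFn k n),
      Reach IsMutable (rectSeed hkn) s ∧ ∀ v, NonvanishingAt M (s.x v) :=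
  main hk hkn hcop M hM

end Pool.Agent.Results.MP_53bec5_ag.EmptyPeriphery
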